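import Pool.Agent.Helper65.LG.Ent
import Pool.Agent.Helper65.LG.LawI
import Pool.Agent.Helper18.LG.L9a
import Pool.Agent.Helper38.LG.L4
import Pool.Agent.Helper31.LG.Step3
import Pool.Agent.Helper58.LG.L1
import Pool.Agent.Helper65.LG.L8gen

/-!
# Leigh's Markov chain: the multiplicative law up to the entropy time

For every generalised Collatz map and every finite closed communicating class `C` of its Leigh
chain, almost all integers of `S_C` in every interval follow the law `|T^k x| = Λ^k |x|` for all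
`k` up to `(1 - ε) log N / h`, where `h` is the entropy of the chain on `C`.
-/

set_option autoImplicit false

open Finset Filter Topology

namespace Pool.Agent.Results.MP_39d40e_nt.LawUpToEntropy

open Pool.Agent.Helper65.LG

/-- `Λ_C = ∏ |m i / d| ^ p i`, where `p i` is the sum of `ρ B` over the `B ∈ C` with `B ⊆ B(i, d)` -/
noncomputable def Lam (G : GMap) (C : Finset (ℕ × ℕ)) (ρ : ℕ × ℕ → ℝ) : ℝ :=
  ∏ i ∈ range G.d, (|(G.m i : ℝ)| / G.d) ^ (∑ B ∈ C with B.1 % G.d = i, ρ B)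

/-- the entropy of the chain on `C`: a state `B` has `d / g` successors, with equal
probabilities -/
noncomputable def ent (G : GMap) (C : Finset (ℕ × ℕ)) (ρ : ℕ × ℕ → ℝ) : ℝ :=
  ∑ B ∈ C, ρ B * Real.log ((G.d : ℝ) / gg G B)

/-- the trajectory of `x` follows the law `L ^ k |x|` up to factors `N ^ ε`, for all
`k ≤ log N / ε` with `k h ≤ (1 - ε) log N` -/
def Follows (G : GMap) (L h ε : ℝ) (N : ℕ) (x : ℤ) : Prop :=
  ∀ k : ℕ, k * h ≤ (1 - ε) * Real.log N → ε * k ≤ Real.log N →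
    (N : ℝ) ^ (-ε) * (L ^ k * |(x : ℝ)|) ≤ |(((T G)^[k] x : ℤ) : ℝ)| ∧
    |(((T G)^[k] x : ℤ) : ℝ)| ≤ (N : ℝ) ^ ε * (L ^ k * |(x : ℝ)|)

open Classical in
/-- **Theorem.** Let `C` be a finite closed communicating class of Leigh's chain of a generalised
Collatz map `T`, with stationary distribution `ρ`, and let `h` be the entropy of the chain on `C`.
(1) `0 ≤ h = ∑ ρ B log (d / d_i)`, the sum over `B ∈ C`, `B ⊆ B(i, d)`.
(2) For every `ε > 0` there is `η > 0` such that for all large `N` in every interval `[u - N, u + N]`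
at most `N ^ (1 - η)` integers of `S_C` do not follow the law `Λ_C ^ k |x|` for all `k ≤ log N / ε`
with `k h ≤ (1 - ε) log N`.
(3) If `Λ_C > 1` and `θ h < h + log Λ_C`, there is `η > 0` such that for all large `N` at most
`N ^ (1 - η)` of the `x ∈ S_C` with `|x| ≤ N` have a trajectory all of whose terms are smaller than
`|x| ^ θ` in absolute value. -/
theorem result (G : GMap) (C : Finset (ℕ × ℕ)) (ρ : ℕ × ℕ → ℝ) (hC : IsClass G C)
    (hρ : IsStat G C ρ) :
    (0 ≤ ent G C ρ ∧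
      ent G C ρ = ∑ B ∈ C, ρ B * Real.log ((G.d : ℝ) / dd G (B.1 % G.d))) ∧
    (∀ ε : ℝ, 0 < ε → ∃ η : ℝ, 0 < η ∧ ∀ᶠ N : ℕ in atTop, ∀ u : ℤ,
      (((Icc (u - (N : ℤ)) (u + N)).filter (fun x : ℤ => x ∈ SC G C ∧
        ¬ Follows G (Lam G C ρ) (ent G C ρ) ε N x)).card : ℝ) ≤ (N : ℝ) ^ (1 - η)) ∧
    (1 < Lam G C ρ → ∀ θ : ℝ, θ * ent G C ρ < ent G C ρ + Real.log (Lam G C ρ) →
      ∃ η : ℝ, 0 < η ∧ ∀ᶠ N : ℕ in atTop,
        (((Icc (-(N : ℤ)) N).filter (fun x : ℤ => x ∈ SC G C ∧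
          ∀ k : ℕ, |(((T G)^[k] x : ℤ) : ℝ)| < |(x : ℝ)| ^ θ)).card : ℝ) ≤
            (N : ℝ) ^ (1 - η)) := by
  have s1 := Pool.Agent.Helper63.LG.step1
  have s2 := Pool.Agent.Helper63.LG.step2
  have s3 := Pool.Agent.Helper31.LG.step3 s1
  have sp := Pool.Agent.Helper58.LG.pL1 s2
  have sc := CI.l3I s1 s3
  have st := TI.tailI s1 s2 sp sc
  have sg := Pool.Agent.Helper38.LG.growth s1
  have sm := Pool.Agent.Helper68.LGC.L7
  obtain ⟨hLpos, hLlog⟩ := Pool.Agent.Helper18.LG.prod_log G C ρ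
  have hL0 : 0 < Lam G C ρ := hLpos
  have hL : Real.log (Lam G C ρ) = mean C ρ (f1 G) := hLlog
  have he : mean C ρ (f2 G) = ent G C ρ := ent_eq hC hρ
  obtain ⟨hb0, hlam⟩ := sm G C ρ hC hρ
  refine ⟨⟨ent_nonneg hρ, he.symm⟩, ?_, ?_⟩
  · intro ε hε
    obtain ⟨η, hη, hN⟩ := LI.lawI st sg sm G C ρ hC hρ ε hε
    refine ⟨η, hη, ?_⟩
    filter_upwards [hN, eventually_gt_atTop 0] with N hN' hN0 u
    refine le_trans ?_ (hN' u)
    refine Nat.cast_le.2 (card_le_card ?_)
    intro x hx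
    rw [mem_filter] at hx ⊢
    refine ⟨hx.1, hx.2.1, fun hlaw => hx.2.2 ?_⟩
    have hNr : (0 : ℝ) < N := by exact_mod_cast hN0
    intro k hk1 hk2
    rw [← he] at hk1
    obtain ⟨h1, h2⟩ := hlaw k hk1 hk2
    have hx0 : x ≠ 0 ∨ x = 0 := (eq_or_ne x 0).symm
    have hT0 : 0 < |(((T G)^[k] x : ℤ) : ℝ)| := by
      rw [abs_pos]
      exact_mod_cast h1
    have hxne : x ≠ 0 := by
      have := (hlaw 0 (by
        have : (0 : ℝ) ≤ (1 - ε) * Real.log N := by
          by_contra hneg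
          push Not at hneg
          have h5 : 0 ≤ (k : ℝ) * mean C ρ (f2 G) := by
            rw [he]
            exact mul_nonneg (Nat.cast_nonneg _) (ent_nonneg hρ)
          linarith
        simpa using this) (by
        have h5 : 0 ≤ ε * (k : ℝ) := by positivity
        have : (0 : ℝ) ≤ Real.log N := le_trans h5 hk2
        simpa using this)).1
      simpa using this
    have hxp : 0 < |(x : ℝ)| := by
      rw [abs_pos]
      exact_mod_cast hxne
    have hpk : 0 < (Lam G C ρ) ^ k * |(x : ℝ)| := by positivity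
    have hlogp : Real.log ((Lam G C ρ) ^ k * |(x : ℝ)|) =
        Real.log |(x : ℝ)| + k * mean C ρ (f1 G) := by
      rw [Real.log_mul (by positivity) hxp.ne', Real.log_pow, hL]
      ring
    rw [abs_le] at h2
    have hNp : ∀ a : ℝ, 0 < (N : ℝ) ^ a := fun a => Real.rpow_pos_of_pos hNr a
    constructor
    · rw [← Real.log_le_log_iff (by have := hNp (-ε); positivity) hT0,
        Real.log_mul (hNp _).ne' hpk.ne', Real.log_rpow hNr, hlogp]
      linarith [h2.1]
    · rw [← Real.log_le_log_iff hT0 (by have := hNp ε; positivity),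
        Real.log_mul (hNp _).ne' hpk.ne', Real.log_rpow hNr, hlogp]
      linarith [h2.2]
  · intro hL1 θ hθ
    have hpos : 0 < mean C ρ (f1 G) := by
      rw [← hL]
      exact Real.log_pos hL1
    have hθ' : θ * mean C ρ (f2 G) < mean C ρ (f0 G) := by
      rw [he]
      rw [hL, hlam, he] at hθ
      linarith
    have hlawE := lawE (TI.tailE_of st) sg sm G C ρ hC hρ
    obtain ⟨η, hη, hN⟩ := Pool.Agent.Helper65.LG.Gen.L8b G C ρ (PS G C)
      (fun E F M hE h => PS.mono M hE h) hlawE hb0 hlam hpos θ hθ'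
    refine ⟨η, hη, ?_⟩
    filter_upwards [hN] with N hN'
    refine le_trans ?_ hN'
    refine Nat.cast_le.2 (card_le_card ?_)
    intro x hx
    rw [mem_filter] at hx ⊢
    refine ⟨hx.1, hx.2.1, ?_⟩
    rintro ⟨k, hk⟩
    exact absurd hk (not_le.2 (hx.2.2 k))

end Pool.Agent.Results.MP_39d40e_nt.LawUpToEntropy
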